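import Pool.Agent.Helper53.FM.Defs
import Pool.Agent.Helper42.WR.WindowBound

/-!
# FM-B6: numerics of the windows
-/

set_option autoImplicit false

namespace Pool.Agent.Helper65.FM

open Finset
open Pool.Agent.Helper53.WR
open Pool.Agent.Helper48.FB (win WinLe)

lemma two_pow_le {m n : ℕ} (h : m ≤ n) : 2 ^ m ≤ 2 ^ n := Nat.pow_le_pow_right (by norm_num) h

/-- existence of a good bound for the windows of `T` -/
lemma exists_W {a u u' e th w F q : ℕ} (T : Finset ℕ) (e300 : 300 ≤ e) (eu : 100 * e ≤ u)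
    (ua : 100 * u ≤ a) (uu : 6 * u' ≤ 7 * u) (hth : th = 8 * u + 64 * e)
    (hq2 : q ≤ 2 ^ (a + 1)) (hq0 : 0 < q) (hT : WinLe T (2 ^ w)) (hF : ∀ n, repF T n ≤ F)
    (hFw : F ≤ 2 ^ (2 * w)) {y : ℕ} (hy : 2 ^ (4 * a + th) ≤ y)
    (hy2 : y < 2 ^ (4 * (a + u) + 8 * u')) :
    ∃ W, (∀ z, y / q ^ 4 ≤ z + 514 + 2 * 2 ^ th → (win T z (2 ^ th)).card ≤ W) ∧
      W * 2 ^ (Nat.log 2 y / 2) ≤ 2 ^ (w + th + 2 * a + 4) := by
  have hy0 : y ≠ 0 := by
    have := Nat.two_pow_pos (4 * a + th)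
    omega
  obtain ⟨l, hl⟩ : ∃ l, Nat.log 2 y = l := ⟨_, rfl⟩
  have hl1 : 4 * a + th ≤ l := by
    rw [← hl]
    exact Nat.le_log_of_pow_le (by norm_num) hy
  have hl2 : l < 4 * (a + u) + 8 * u' := by
    rw [← hl]
    exact Nat.log_lt_of_lt_pow hy0 hy2
  have hyl : 2 ^ l ≤ y := by
    rw [← hl]
    exact Nat.pow_log_le_self 2 hy0
  rw [hl]
  by_cases hc : l < 4 * a + th + 8
  · refine ⟨2 ^ (w + th / 2 + 1), fun z _ => ?_, ?_⟩
    · have h1 := Pool.Agent.Helper42.WR.window_bound T F (2 ^ th) hF z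
      have h2 : (win T z (2 ^ th)).card ^ 2 ≤ (2 ^ (w + th / 2 + 1)) ^ 2 := by
        refine h1.trans ?_
        calc 2 * 2 ^ th * F ≤ 2 * 2 ^ th * 2 ^ (2 * w) := Nat.mul_le_mul_left _ hFw
          _ = 2 ^ (1 + th + 2 * w) := by rw [pow_add, pow_add, pow_one]
          _ ≤ 2 ^ ((w + th / 2 + 1) * 2) := two_pow_le (by omega)
          _ = (2 ^ (w + th / 2 + 1)) ^ 2 := pow_mul _ _ _
      exact (Nat.pow_le_pow_iff_left (by norm_num)).mp h2
    · rw [← pow_add]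
      exact two_pow_le (by omega)
  · push Not at hc
    obtain ⟨μ, hμ⟩ : ∃ μ, (l - 4 * a - 5) / 2 = μ := ⟨_, rfl⟩
    have hμth : μ ≤ th := by omega
    refine ⟨2 ^ w * (2 ^ (th - μ) + 1), fun z hz => ?_, ?_⟩
    · -- `z` is large
      have hq4 : q ^ 4 ≤ 2 ^ (4 * a + 4) := by
        calc q ^ 4 ≤ (2 ^ (a + 1)) ^ 4 := Nat.pow_le_pow_left hq2 4
          _ = 2 ^ (4 * a + 4) := by rw [← pow_mul]; congr 1; ring
      have h1 : 2 ^ (l - 4 * a - 4) ≤ y / q ^ 4 := by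
        rw [Nat.le_div_iff_mul_le (pow_pos hq0 4)]
        calc 2 ^ (l - 4 * a - 4) * q ^ 4 ≤ 2 ^ (l - 4 * a - 4) * 2 ^ (4 * a + 4) :=
              Nat.mul_le_mul_left _ hq4
          _ = 2 ^ l := by rw [← pow_add]; congr 1; omega
          _ ≤ y := hyl
      have h2 : 2 ^ (l - 4 * a - 4) = 2 * 2 ^ (l - 4 * a - 5) := by
        rw [← pow_succ']
        congr 1
        omega
      have h3 : 514 + 2 * 2 ^ th ≤ 2 ^ (l - 4 * a - 5) := by
        have h4 : 2 ^ (th + 3) ≤ 2 ^ (l - 4 * a - 5) := two_pow_le (by omega)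
        have h5 : 2 ^ (th + 3) = 8 * 2 ^ th := by rw [pow_add]; ring
        have h6 : 2 ^ 10 ≤ 2 ^ th := two_pow_le (by omega)
        norm_num at h6
        omega
      have hz2 : 2 ^ (l - 4 * a - 5) ≤ z := by omega
      have hz0 : z ≠ 0 := by
        have := Nat.two_pow_pos (l - 4 * a - 5)
        omega
      have hz3 : l - 4 * a - 5 ≤ Nat.log 2 z :=
        Nat.le_log_of_pow_le (by norm_num) hz2
      have hz4 : 2 ^ μ ≤ 2 ^ (Nat.log 2 z / 2) := two_pow_le (by omega)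
      have h7 := hT z (2 ^ th)
      have h8 : 2 ^ th ≤ 2 ^ (th - μ) * 2 ^ (Nat.log 2 z / 2) := by
        calc 2 ^ th = 2 ^ (th - μ) * 2 ^ μ := by rw [← pow_add]; congr 1; omega
          _ ≤ 2 ^ (th - μ) * 2 ^ (Nat.log 2 z / 2) := Nat.mul_le_mul_left _ hz4
      have hpos : 0 < 2 ^ (Nat.log 2 z / 2) := Nat.two_pow_pos _
      refine Nat.le_of_mul_le_mul_right ?_ hpos
      calc (win T z (2 ^ th)).card * 2 ^ (Nat.log 2 z / 2)
          ≤ 2 ^ w * (2 ^ th + 2 ^ (Nat.log 2 z / 2)) := h7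
        _ ≤ 2 ^ w * (2 ^ (th - μ) * 2 ^ (Nat.log 2 z / 2) + 2 ^ (Nat.log 2 z / 2)) :=
            Nat.mul_le_mul_left _ (Nat.add_le_add_right h8 _)
        _ = 2 ^ w * (2 ^ (th - μ) + 1) * 2 ^ (Nat.log 2 z / 2) := by ring
    · calc 2 ^ w * (2 ^ (th - μ) + 1) * 2 ^ (l / 2)
          = 2 ^ (w + (th - μ) + l / 2) + 2 ^ (w + l / 2) := by
            rw [pow_add, pow_add, pow_add]
            ring
        _ ≤ 2 ^ (w + th + 2 * a + 3) + 2 ^ (w + th + 2 * a + 3) :=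
            Nat.add_le_add (two_pow_le (by omega)) (two_pow_le (by omega))
        _ = 2 ^ (w + th + 2 * a + 4) := by
            rw [show w + th + 2 * a + 4 = (w + th + 2 * a + 3) + 1 by ring, pow_succ]
            ring

/-- the case of large `y` -/
lemma large {a u u' e th w F q : ℕ} (T A : Finset ℕ) (e300 : 300 ≤ e) (eu : 100 * e ≤ u)
    (ua : 100 * u ≤ a) (uu : 6 * u' ≤ 7 * u) (hth : th = 8 * u + 64 * e)
    (hq1 : 2 ^ a < q) (hq2 : q ≤ 2 ^ (a + 1)) (hT : WinLe T (2 ^ w)) (hF : ∀ n, repF T n ≤ F)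
    (hFw : F ≤ 2 ^ (2 * w))
    (hA : ∀ b ∈ A, 2 ^ (4 * a + th) ≤ b ∧ b < 2 ^ (4 * (a + u) + 8 * u'))
    (hs : ∀ y h W, h ≤ q ^ 4 →
      (∀ z, y / q ^ 4 ≤ z + 514 + 2 * 2 ^ th → (win T z (2 ^ th)).card ≤ W) →
      (win A y h).card * 2 ^ th ≤
        4096 * (2 * (3 * (20 * a * (h / q ^ 2 + 2) * W) + 6 * a * 2 ^ th)))
    (hl : ∀ y h W, (∀ z, y / q ^ 4 ≤ z + 514 + 2 * 2 ^ th → (win T z (2 ^ th)).card ≤ W) →
      (win A y h).card ≤ 4096 * ((h / q ^ 4 + 2) * 2 ^ (2 * a - th + 7) * W))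
    {y : ℕ} (h : ℕ) (hy : 2 ^ (4 * a + th) ≤ y) :
    (win A y h).card * 2 ^ (Nat.log 2 y / 2) ≤
      2 ^ (w + Nat.log 2 a + 40) * (h + 2 ^ (Nat.log 2 y / 2)) := by
  have hq0 : 0 < q := by omega
  by_cases hy2 : y < 2 ^ (4 * (a + u) + 8 * u')
  swap
  · have hem : win A y h = ∅ := by
      unfold win
      rw [Finset.filter_eq_empty_iff]
      intro x hx hcon
      have := (hA x hx).2
      omega
    rw [hem, Finset.card_empty, zero_mul]
    exact Nat.zero_le _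
  obtain ⟨W, hW1, hW2⟩ := exists_W T e300 eu ua uu hth hq2 hq0 hT hF hFw hy hy2
  have ha0 : a ≠ 0 := by omega
  have hloga : a < 2 ^ (Nat.log 2 a + 1) := Nat.lt_pow_succ_log_self (by norm_num) a
  have hy0 : y ≠ 0 := by
    have := Nat.two_pow_pos (4 * a + th)
    omega
  have hl1 : 4 * a + th ≤ Nat.log 2 y := Nat.le_log_of_pow_le (by norm_num) hy
  obtain ⟨Λ, hΛ⟩ : ∃ Λ, 2 ^ (Nat.log 2 y / 2) = Λ := ⟨_, rfl⟩
  have hΛ2 : 2 ^ (2 * a) ≤ Λ := by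
    rw [← hΛ]
    exact two_pow_le (by omega)
  rw [hΛ] at hW2 ⊢
  obtain ⟨C, hC⟩ : ∃ C, (win A y h).card = C := ⟨_, rfl⟩
  rw [hC]
  by_cases hh : h ≤ q ^ 4
  · have h1 := hs y h W hh hW1
    rw [hC] at h1
    have h2 : (h / q ^ 2 + 2) * 2 ^ (2 * a) ≤ h + 2 * Λ := by
      have h3 : h / q ^ 2 * 2 ^ (2 * a) ≤ h := by
        calc h / q ^ 2 * 2 ^ (2 * a) ≤ h / q ^ 2 * q ^ 2 := by
              apply Nat.mul_le_mul_left
              calc 2 ^ (2 * a) = (2 ^ a) ^ 2 := by rw [← pow_mul]; congr 1; ring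
                _ ≤ q ^ 2 := Nat.pow_le_pow_left hq1.le 2
          _ ≤ h := Nat.div_mul_le_self _ _
      calc (h / q ^ 2 + 2) * 2 ^ (2 * a) = h / q ^ 2 * 2 ^ (2 * a) + 2 * 2 ^ (2 * a) := by ring
        _ ≤ h + 2 * Λ := Nat.add_le_add h3 (Nat.mul_le_mul_left _ hΛ2)
    have hpos : 0 < 2 ^ th := Nat.two_pow_pos _
    refine Nat.le_of_mul_le_mul_right ?_ hpos
    calc C * Λ * 2 ^ th = C * 2 ^ th * Λ := by ring
      _ ≤ 4096 * (2 * (3 * (20 * a * (h / q ^ 2 + 2) * W) + 6 * a * 2 ^ th)) * Λ :=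
          Nat.mul_le_mul_right _ h1
      _ = 491520 * a * (h / q ^ 2 + 2) * (W * Λ) + 49152 * a * 2 ^ th * Λ := by ring
      _ ≤ 491520 * a * (h / q ^ 2 + 2) * 2 ^ (w + th + 2 * a + 4) + 49152 * a * 2 ^ th * Λ :=
          Nat.add_le_add_right (Nat.mul_le_mul_left _ hW2) _
      _ = 7864320 * a * 2 ^ w * 2 ^ th * ((h / q ^ 2 + 2) * 2 ^ (2 * a)) +
            49152 * a * 2 ^ th * Λ := by
          rw [pow_add, pow_add, pow_add]
          ring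
      _ ≤ 7864320 * a * 2 ^ w * 2 ^ th * (h + 2 * Λ) + 49152 * a * 2 ^ th * Λ :=
          Nat.add_le_add_right (Nat.mul_le_mul_left _ h2) _
      _ ≤ 7864320 * a * 2 ^ w * 2 ^ th * (h + 2 * Λ) + 49152 * a * 2 ^ th * Λ * 2 ^ w :=
          Nat.add_le_add_left (Nat.le_mul_of_pos_right _ (Nat.two_pow_pos _)) _
      _ ≤ 2 ^ 24 * a * 2 ^ w * 2 ^ th * (h + Λ) := by
          have e1 : 7864320 * a * 2 ^ w * 2 ^ th * (h + 2 * Λ) + 49152 * a * 2 ^ th * Λ * 2 ^ w =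
              (a * 2 ^ w * 2 ^ th) * (7864320 * (h + 2 * Λ) + 49152 * Λ) := by ring
          have e2 : 2 ^ 24 * a * 2 ^ w * 2 ^ th * (h + Λ) =
              (a * 2 ^ w * 2 ^ th) * (2 ^ 24 * (h + Λ)) := by ring
          rw [e1, e2]
          apply Nat.mul_le_mul_left
          omega
      _ ≤ 2 ^ 24 * 2 ^ (Nat.log 2 a + 1) * 2 ^ w * 2 ^ th * (h + Λ) := by
          gcongr
      _ = 2 ^ (w + Nat.log 2 a + 25) * (h + Λ) * 2 ^ th := by
          rw [pow_add, pow_add, pow_add]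
          ring
      _ ≤ 2 ^ (w + Nat.log 2 a + 40) * (h + Λ) * 2 ^ th := by
          apply Nat.mul_le_mul_right
          apply Nat.mul_le_mul_right
          exact two_pow_le (by omega)
  · push Not at hh
    have h1 := hl y h W hW1
    rw [hC] at h1
    have h2 : (h / q ^ 4 + 2) * 2 ^ (4 * a) ≤ 3 * h := by
      have h5 : 2 ^ (4 * a) ≤ q ^ 4 := by
        calc 2 ^ (4 * a) = (2 ^ a) ^ 4 := by rw [← pow_mul]; congr 1; ring
          _ ≤ q ^ 4 := Nat.pow_le_pow_left hq1.le 4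
      have h3 : h / q ^ 4 * 2 ^ (4 * a) ≤ h :=
        (Nat.mul_le_mul_left _ h5).trans (Nat.div_mul_le_self _ _)
      have h4 : 2 ^ (4 * a) ≤ h := h5.trans hh.le
      calc (h / q ^ 4 + 2) * 2 ^ (4 * a) = h / q ^ 4 * 2 ^ (4 * a) + 2 * 2 ^ (4 * a) := by ring
        _ ≤ 3 * h := by omega
    calc C * Λ ≤ 4096 * ((h / q ^ 4 + 2) * 2 ^ (2 * a - th + 7) * W) * Λ :=
          Nat.mul_le_mul_right _ h1
      _ = 4096 * (h / q ^ 4 + 2) * 2 ^ (2 * a - th + 7) * (W * Λ) := by ring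
      _ ≤ 4096 * (h / q ^ 4 + 2) * 2 ^ (2 * a - th + 7) * 2 ^ (w + th + 2 * a + 4) :=
          Nat.mul_le_mul_left _ hW2
      _ = 4096 * (h / q ^ 4 + 2) * (2 ^ (2 * a - th + 7) * 2 ^ (w + th + 2 * a + 4)) := by ring
      _ = 4096 * (h / q ^ 4 + 2) * 2 ^ (w + 11 + 4 * a) := by
          rw [← pow_add]
          congr 2
          omega
      _ = 8388608 * 2 ^ w * ((h / q ^ 4 + 2) * 2 ^ (4 * a)) := by
          rw [pow_add, pow_add]
          ring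
      _ ≤ 8388608 * 2 ^ w * (3 * h) := Nat.mul_le_mul_left _ h2
      _ ≤ 2 ^ 25 * 2 ^ w * (h + Λ) := by
          have e1 : 8388608 * 2 ^ w * (3 * h) = 2 ^ w * (25165824 * h) := by ring
          have e2 : 2 ^ 25 * 2 ^ w * (h + Λ) = 2 ^ w * (2 ^ 25 * (h + Λ)) := by ring
          rw [e1, e2]
          apply Nat.mul_le_mul_left
          omega
      _ = 2 ^ (w + 25) * (h + Λ) := by
          rw [pow_add]
          ring
      _ ≤ 2 ^ (w + Nat.log 2 a + 40) * (h + Λ) := by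
          apply Nat.mul_le_mul_right
          exact two_pow_le (by omega)

/-- FM-B6 (numerics of the windows). -/
theorem wn_of3 {a u u' e th w F q : ℕ} (T A : Finset ℕ) (e300 : 300 ≤ e) (eu : 100 * e ≤ u)
    (ua : 100 * u ≤ a) (uu : 6 * u' ≤ 7 * u) (hth : th = 8 * u + 64 * e)
    (hq1 : 2 ^ a < q) (hq2 : q ≤ 2 ^ (a + 1)) (hT : WinLe T (2 ^ w)) (hF : ∀ n, repF T n ≤ F)
    (hFw : F ≤ 2 ^ (2 * w))
    (hA : ∀ b ∈ A, 2 ^ (4 * a + th) ≤ b ∧ b < 2 ^ (4 * (a + u) + 8 * u'))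
    (hs : ∀ y h W, h ≤ q ^ 4 →
      (∀ z, y / q ^ 4 ≤ z + 514 + 2 * 2 ^ th → (win T z (2 ^ th)).card ≤ W) →
      (win A y h).card * 2 ^ th ≤
        4096 * (2 * (3 * (20 * a * (h / q ^ 2 + 2) * W) + 6 * a * 2 ^ th)))
    (hl : ∀ y h W, (∀ z, y / q ^ 4 ≤ z + 514 + 2 * 2 ^ th → (win T z (2 ^ th)).card ≤ W) →
      (win A y h).card ≤ 4096 * ((h / q ^ 4 + 2) * 2 ^ (2 * a - th + 7) * W)) :
    WinLe A (2 ^ (w + Nat.log 2 a + 40)) := by
  intro y h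
  by_cases hy : 2 ^ (4 * a + th) ≤ y
  · exact large T A e300 eu ua uu hth hq1 hq2 hT hF hFw hA hs hl h hy
  push Not at hy
  set b0 : ℕ := 2 ^ (4 * a + th) with hb0
  have hb0ne : b0 ≠ 0 := by
    rw [hb0]
    exact (Nat.two_pow_pos _).ne'
  have hsub : win A y h ⊆ win A b0 (y + h - b0) := by
    intro x hx
    unfold win at hx ⊢
    rw [Finset.mem_filter] at hx ⊢
    have := (hA x hx.1).1
    exact ⟨hx.1, this, by omega⟩
  have hle := Finset.card_le_card hsub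
  have hlar := large T A e300 eu ua uu hth hq1 hq2 hT hF hFw hA hs hl (y + h - b0) (le_refl b0)
  obtain ⟨K, hK⟩ : ∃ K, 2 ^ (w + Nat.log 2 a + 40) = K := ⟨_, rfl⟩
  rw [hK] at hlar ⊢
  have hlog : Nat.log 2 y / 2 ≤ Nat.log 2 b0 / 2 :=
    Nat.div_le_div_right (Nat.log_mono_right hy.le)
  obtain ⟨j, hj⟩ := Nat.exists_eq_add_of_le hlog
  rw [hj, pow_add] at hlar
  obtain ⟨Λ, hΛ⟩ : ∃ Λ, 2 ^ (Nat.log 2 y / 2) = Λ := ⟨_, rfl⟩
  rw [hΛ] at hlar ⊢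
  have hj1 : 1 ≤ 2 ^ j := Nat.one_le_two_pow
  obtain ⟨P, hP⟩ : ∃ P, 2 ^ j = P := ⟨_, rfl⟩
  rw [hP] at hlar hj1
  have h1 : (win A y h).card * (Λ * P) ≤ K * (y + h - b0 + Λ * P) :=
    (Nat.mul_le_mul_right _ hle).trans hlar
  have h2 : y + h - b0 ≤ h := by omega
  refine Nat.le_of_mul_le_mul_right (c := P) ?_ (by omega)
  calc (win A y h).card * Λ * P = (win A y h).card * (Λ * P) := by ring
    _ ≤ K * (y + h - b0 + Λ * P) := h1
    _ ≤ K * (h * P + Λ * P) := by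
        apply Nat.mul_le_mul_left
        apply Nat.add_le_add_right
        exact h2.trans (Nat.le_mul_of_pos_right _ (by omega))
    _ = K * (h + Λ) * P := by ring

end Pool.Agent.Helper65.FM
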